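import Mathlib

/-!
# Jets of piecewise polynomials along lines, and the coefficients of a polynomial which vanishes
to high order along a coordinate hyperplane
-/

namespace Run7.h662

open Polynomial

lemma iteratedDeriv_eval (P : ℝ[X]) (n : ℕ) :
    iteratedDeriv n (fun t : ℝ => P.eval t) = fun t => (derivative^[n] P).eval t := by
  induction n with
  | zero => simp
  | succ n ih =>
    rw [iteratedDeriv_succ, ih, Function.iterate_succ_apply']
    funext t
    exact Polynomial.deriv _

/-- If a `C^r` function near `0` is given by polynomials `P` on the left and `Q` on the right of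
`0`, then the coefficients of `P` and `Q` of degree at most `r` agree. -/
lemma coeff_eq_of_contDiffOn {r : ℕ} {g : ℝ → ℝ} {ε : ℝ} (hε : 0 < ε)
    (hg : ContDiffOn ℝ r g (Set.Ioo (-ε) ε)) (P Q : ℝ[X])
    (hP : ∀ t, -ε < t → t ≤ 0 → g t = P.eval t)
    (hQ : ∀ t, 0 ≤ t → t < ε → g t = Q.eval t) (n : ℕ) (hn : n ≤ r) :
    P.coeff n = Q.coeff n := by
  have hopen : IsOpen (Set.Ioo (-ε) ε) := isOpen_Ioo
  have h0 : (0 : ℝ) ∈ Set.Ioo (-ε) ε := ⟨by linarith, hε⟩
  have hcont : ContinuousAt (iteratedDeriv n g) 0 := by
    have h1 : ContinuousOn (iteratedDerivWithin n g (Set.Ioo (-ε) ε)) (Set.Ioo (-ε) ε) :=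
      hg.continuousOn_iteratedDerivWithin (by exact_mod_cast hn) hopen.uniqueDiffOn
    have h2 : ContinuousOn (iteratedDeriv n g) (Set.Ioo (-ε) ε) :=
      h1.congr (fun x hx => (iteratedDerivWithin_of_isOpen hopen hx).symm)
    exact h2.continuousAt (hopen.mem_nhds h0)
  have key : ∀ (R : ℝ[X]) (S : Set ℝ), IsOpen S → (nhdsWithin 0 S).NeBot →
      (∀ t ∈ S, g t = R.eval t) → iteratedDeriv n g 0 = (derivative^[n] R).eval 0 := by
    intro R S hS hne hgS
    have h3 : Set.EqOn (iteratedDeriv n g) (fun t => (derivative^[n] R).eval t) S := by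
      have : Set.EqOn g (fun t => R.eval t) S := fun t ht => hgS t ht
      have h4 := this.iteratedDeriv_of_isOpen hS n
      rw [iteratedDeriv_eval] at h4
      exact h4
    have h5 : Filter.Tendsto (iteratedDeriv n g) (nhdsWithin 0 S) (nhds (iteratedDeriv n g 0)) :=
      hcont.tendsto.mono_left nhdsWithin_le_nhds
    have h6 : Filter.Tendsto (fun t => (derivative^[n] R).eval t) (nhdsWithin 0 S)
        (nhds ((derivative^[n] R).eval 0)) :=
      ((derivative^[n] R).continuous.tendsto 0).mono_left nhdsWithin_le_nhds
    have h7 : Filter.Tendsto (iteratedDeriv n g) (nhdsWithin 0 S)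
        (nhds ((derivative^[n] R).eval 0)) := by
      refine h6.congr' ?_
      filter_upwards [self_mem_nhdsWithin] with t ht
      exact (h3 ht).symm
    exact tendsto_nhds_unique h5 h7
  have hl := key P (Set.Ioo (-ε) 0) isOpen_Ioo
    (by rw [nhdsWithin_Ioo_eq_nhdsLT (by linarith)]; infer_instance)
    (fun t ht => hP t ht.1 ht.2.le)
  have hr := key Q (Set.Ioo 0 ε) isOpen_Ioo
    (by rw [nhdsWithin_Ioo_eq_nhdsGT hε]; infer_instance)
    (fun t ht => hQ t ht.1.le ht.2)
  have h8 : (derivative^[n] P).eval 0 = (derivative^[n] Q).eval 0 := hl.symm.trans hr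
  rw [← coeff_zero_eq_eval_zero, ← coeff_zero_eq_eval_zero, coeff_iterate_derivative,
    coeff_iterate_derivative, zero_add, Nat.descFactorial_self] at h8
  simp only [nsmul_eq_mul] at h8
  exact mul_left_cancel₀ (by exact_mod_cast n.factorial_ne_zero) h8

variable {s : ℕ}

/-- The substitution `x_c ↦ a + t`, as a polynomial in `t` with coefficients in the other
variables. -/
noncomputable def sub1 (c : Fin s) (a : ℝ) (D : MvPolynomial (Fin s) ℝ) :
    Polynomial (MvPolynomial (Fin s) ℝ) :=
  MvPolynomial.aeval (fun j => if j = c then Polynomial.C (MvPolynomial.C a) + Polynomial.X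
    else Polynomial.C (MvPolynomial.X j)) D

lemma map_sub1 (c : Fin s) (a : ℝ) (D : MvPolynomial (Fin s) ℝ) (x : Fin s → ℝ) :
    (sub1 c a D).map (MvPolynomial.eval x) =
      MvPolynomial.aeval (fun j => if j = c then Polynomial.C a + Polynomial.X
        else Polynomial.C (x j)) D := by
  unfold sub1
  induction D using MvPolynomial.induction_on with
  | C r =>
    rw [MvPolynomial.aeval_C, MvPolynomial.aeval_C]
    simp [Polynomial.algebraMap_apply]
  | add p q hp hq => simp only [map_add, Polynomial.map_add, hp, hq]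
  | mul_X p j hp =>
    simp only [map_mul, Polynomial.map_mul, hp, MvPolynomial.aeval_X]
    congr 1
    split_ifs <;> simp

lemma eval_line (c : Fin s) (a : ℝ) (D : MvPolynomial (Fin s) ℝ) (x : Fin s → ℝ) (t : ℝ) :
    (MvPolynomial.aeval (fun j => if j = c then Polynomial.C a + Polynomial.X
        else Polynomial.C (x j)) D : ℝ[X]).eval t =
      MvPolynomial.eval (Function.update x c (a + t)) D := by
  induction D using MvPolynomial.induction_on with
  | C r =>
    rw [MvPolynomial.aeval_C]
    simp
  | add p q hp hq => simp only [map_add, Polynomial.eval_add, hp, hq]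
  | mul_X p j hp =>
    simp only [map_mul, Polynomial.eval_mul, hp, MvPolynomial.aeval_X, MvPolynomial.eval_X]
    congr 1
    by_cases h : j = c
    · subst h; simp
    · simp [h]

lemma coeff_sub1_monomial (c : Fin s) (a d : ℝ) (α β : Fin s →₀ ℕ) (m : ℕ) (hβ : β c = 0)
    (hdeg : (α.sum fun _ e => e) ≤ (β.sum fun _ e => e) + m) :
    MvPolynomial.coeff β ((sub1 c a (MvPolynomial.monomial α d)).coeff m) =
      if α = β + Finsupp.single c m then d else 0 := by
  classical
  have h1 : sub1 c a (MvPolynomial.monomial α d) =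
      Polynomial.C (MvPolynomial.monomial (α.erase c) d) *
        (Polynomial.C (MvPolynomial.C a) + Polynomial.X) ^ (α c) := by
    unfold sub1
    rw [MvPolynomial.aeval_monomial]
    have h2 : α.prod (fun j e => (if j = c then Polynomial.C (MvPolynomial.C a) + Polynomial.X
        else Polynomial.C (MvPolynomial.X j) : Polynomial (MvPolynomial (Fin s) ℝ)) ^ e) =
        (∏ j : Fin s, (if j = c then (1 : Polynomial (MvPolynomial (Fin s) ℝ))
          else Polynomial.C (MvPolynomial.X j) ^ (α j))) *
        (Polynomial.C (MvPolynomial.C a) + Polynomial.X) ^ (α c) := by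
      rw [Finsupp.prod_fintype _ _ (fun i => by simp)]
      rw [← Finset.mul_prod_erase Finset.univ (fun j => (if j = c then
          (1 : Polynomial (MvPolynomial (Fin s) ℝ))
          else Polynomial.C (MvPolynomial.X j) ^ (α j))) (Finset.mem_univ c),
        ← Finset.mul_prod_erase Finset.univ _ (Finset.mem_univ c)]
      simp only [if_true, one_mul]
      rw [mul_comm]
      congr 1
      apply Finset.prod_congr rfl
      intro j hj
      have : j ≠ c := Finset.ne_of_mem_erase hj
      simp [this]
    rw [h2, ← mul_assoc]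
    congr 1
    rw [MvPolynomial.monomial_eq, Polynomial.algebraMap_apply, MvPolynomial.algebraMap_eq, map_mul]
    congr 1
    rw [Finsupp.prod_fintype _ _ (fun i => by simp), map_prod]
    apply Finset.prod_congr rfl
    intro j _
    by_cases h : j = c
    · subst h; simp
    · simp [h]
  rw [h1, Polynomial.coeff_C_mul, add_comm (Polynomial.C (MvPolynomial.C a)),
    Polynomial.coeff_X_add_C_pow]
  have h3 : (MvPolynomial.monomial (α.erase c) d *
      ((MvPolynomial.C a) ^ (α c - m) * ((α c).choose m : MvPolynomial (Fin s) ℝ))) =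
      MvPolynomial.monomial (α.erase c) (d * (a ^ (α c - m) * ((α c).choose m : ℝ))) := by
    rw [← MvPolynomial.C_pow]
    have : (((α c).choose m : ℕ) : MvPolynomial (Fin s) ℝ) =
        MvPolynomial.C (((α c).choose m : ℕ) : ℝ) := by simp
    rw [this, ← MvPolynomial.C_mul, mul_comm, MvPolynomial.C_mul_monomial, mul_comm]
  rw [h3, MvPolynomial.coeff_monomial]
  have hsplit : α = α.erase c + Finsupp.single c (α c) := (Finsupp.erase_add_single c α).symm
  by_cases h4 : α.erase c = β
  · rw [if_pos h4]
    have h5 : α = β + Finsupp.single c (α c) := by rw [← h4]; exact hsplit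
    have h6 : (α.sum fun _ e => e) = (β.sum fun _ e => e) + α c := by
      conv_lhs => rw [h5]
      rw [Finsupp.sum_add_index' (fun _ => rfl) (fun _ _ _ => rfl), Finsupp.sum_single_index rfl]
    have h7 : α c ≤ m := by omega
    rcases Nat.lt_or_ge (α c) m with h8 | h8
    · rw [Nat.choose_eq_zero_of_lt h8, if_neg]
      · simp
      · intro h9
        have := congrArg (fun f => f c) h9
        simp [hβ] at this
        omega
    · have h9 : α c = m := le_antisymm h7 h8
      rw [h9] at h5
      rw [if_pos h5, h9]
      simp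
  · rw [if_neg h4, if_neg]
    intro h5
    apply h4
    rw [h5]
    ext j
    by_cases hj : j = c
    · subst hj; simp [hβ]
    · simp [hj, Finsupp.erase_ne]

/-- The coefficient of `x^β x_c^m` can be read off from the coefficient of `t^m` of the
substitution `x_c = a + t`, if the total degree is at most `|β| + m`. -/
lemma coeff_sub1 (c : Fin s) (a : ℝ) (D : MvPolynomial (Fin s) ℝ) (β : Fin s →₀ ℕ) (m : ℕ)
    (hβ : β c = 0) (hdeg : D.totalDegree ≤ (β.sum fun _ e => e) + m) :
    MvPolynomial.coeff β ((sub1 c a D).coeff m) =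
      MvPolynomial.coeff (β + Finsupp.single c m) D := by
  classical
  have h1 : sub1 c a D = ∑ α ∈ D.support, sub1 c a (MvPolynomial.monomial α (D.coeff α)) := by
    conv_lhs => rw [D.as_sum]
    unfold sub1
    rw [map_sum]
  rw [h1, Polynomial.finsetSum_coeff, MvPolynomial.coeff_sum]
  rw [Finset.sum_congr rfl (fun α hα => coeff_sub1_monomial c a (D.coeff α) α β m hβ
    ((MvPolynomial.le_totalDegree hα).trans hdeg))]
  rw [Finset.sum_ite_eq']
  split_ifs with h
  · rfl
  · exact (MvPolynomial.notMem_support_iff.mp h).symm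

end Run7.h662
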