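import Mathlib

/-!
# Spline spaces on triangulations of polyhedral regions of `ℝ^s`

The definitions follow the problem file `MP_426dd2_an`.
-/

namespace Run7.h662

/-- A triangulation of a polyhedral region of `ℝ^s`: a finite collection of `s`-simplices, each
given by its set of `s + 1` affinely independent vertices, such that any two of them meet in the
convex hull of their common vertices (that is, in a common face, or not at all). -/
structure Triangulation (s : ℕ) where
  /-- the vertex sets of the `s`-simplices -/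
  cells : Finset (Finset (Fin s → ℝ))
  card_cell : ∀ T ∈ cells, T.card = s + 1
  indep : ∀ T ∈ cells, AffineIndependent ℝ (fun x : T => (x : Fin s → ℝ))
  inter : ∀ T ∈ cells, ∀ T' ∈ cells,
    convexHull ℝ (T : Set (Fin s → ℝ)) ∩ convexHull ℝ (T' : Set (Fin s → ℝ)) ⊆
      convexHull ℝ ((T : Set (Fin s → ℝ)) ∩ (T' : Set (Fin s → ℝ)))

variable {s : ℕ}

/-- The vertices of a triangulation. -/
def Triangulation.vertices (Δ : Triangulation s) : Set (Fin s → ℝ) :=
  {v | ∃ T ∈ Δ.cells, v ∈ T}

/-- The region `Ω` which is triangulated: the union of the (closed) `s`-simplices. -/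
def Triangulation.region (Δ : Triangulation s) : Set (Fin s → ℝ) :=
  {x | ∃ T ∈ Δ.cells, x ∈ convexHull ℝ (T : Set (Fin s → ℝ))}

/-- `Δ.mstar v m` is the `m`-star of `v`: the `0`-star is `{v}`, and the `(m+1)`-star is the
union of the `s`-simplices of `Δ` that meet the `m`-star.  For a vertex `v`, the `1`-star is the
union of the `s`-simplices that contain `v`. -/
def Triangulation.mstar (Δ : Triangulation s) (v : Fin s → ℝ) : ℕ → Set (Fin s → ℝ)
  | 0 => {v}
  | m + 1 => {x | ∃ T ∈ Δ.cells,
      (convexHull ℝ (T : Set (Fin s → ℝ)) ∩ Δ.mstar v m).Nonempty ∧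
        x ∈ convexHull ℝ (T : Set (Fin s → ℝ))}

/-- The spline space `S_k^r(Δ)`.  A spline is represented by its extension by zero off the
region `Ω`: `f` vanishes off `Ω`, is `C^r` on the closed set `Ω`, and its restriction to every
`s`-simplex of `Δ` is a polynomial of total degree at most `k`. -/
def Triangulation.splines (Δ : Triangulation s) (k r : ℕ) :
    Submodule ℝ ((Fin s → ℝ) → ℝ) where
  carrier := {f | (∀ x, x ∉ Δ.region → f x = 0) ∧ ContDiffOn ℝ r f Δ.region ∧
    ∀ T ∈ Δ.cells, ∃ p : MvPolynomial (Fin s) ℝ, p.totalDegree ≤ k ∧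
      ∀ x ∈ convexHull ℝ (T : Set (Fin s → ℝ)), f x = MvPolynomial.eval x p}
  zero_mem' := by
    refine ⟨fun _ _ => rfl, contDiffOn_const, fun T _ => ⟨0, by simp, fun x _ => by simp⟩⟩
  add_mem' := by
    rintro f g ⟨hf1, hf2, hf3⟩ ⟨hg1, hg2, hg3⟩
    refine ⟨fun x hx => by simp [hf1 x hx, hg1 x hx], hf2.add hg2, fun T hT => ?_⟩
    obtain ⟨p, hp, hp'⟩ := hf3 T hT
    obtain ⟨q, hq, hq'⟩ := hg3 T hT
    refine ⟨p + q, (MvPolynomial.totalDegree_add p q).trans (max_le hp hq), fun x hx => ?_⟩
    simp [hp' x hx, hq' x hx]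
  smul_mem' := by
    rintro c f ⟨hf1, hf2, hf3⟩
    refine ⟨fun x hx => by simp [hf1 x hx], contDiffOn_const.smul hf2, fun T hT => ?_⟩
    obtain ⟨p, hp, hp'⟩ := hf3 T hT
    refine ⟨c • p, (MvPolynomial.totalDegree_smul_le c p).trans hp, fun x hx => ?_⟩
    simp [hp' x hx]

/-- `S_k^r(Δ)` has a basis every member of which is supported in the `m`-star of some vertex. -/
def Triangulation.HasBasisInStars (Δ : Triangulation s) (k r m : ℕ) : Prop :=
  ∃ (ι : Type) (B : Module.Basis ι ℝ (Δ.splines k r)), ∀ i, ∃ v ∈ Δ.vertices,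
    Function.support (B i : (Fin s → ℝ) → ℝ) ⊆ Δ.mstar v m

/-- The spline spaces `S_k^r(Δ)` on the triangulations `Δ` of regions of `ℝ^s` have local bases:
there is an `m ≥ 1`, depending only on `s, k, r`, such that for every triangulation `Δ` the space
`S_k^r(Δ)` has a basis each member of which is supported in the `m`-star of a vertex of `Δ`. -/
def HaveLocalBases (s k r : ℕ) : Prop :=
  ∃ m : ℕ, 1 ≤ m ∧ ∀ Δ : Triangulation s, Δ.HasBasisInStars k r m

end Run7.h662
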