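import Mathlib
import Pool.Agent.Run7.h662.SplineDefs

/-!
# The staircase chain of simplices

The points `v_j` of the staircase, the affine functions `G_j`, the simplices
`T_i = conv (v_i, …, v_{i+s})`, and the triangulation formed by `T_0, …, T_N`.
-/

namespace Run7.h662

open Finset

variable {s : ℕ}

/-- The `j`-th vertex of the staircase: `v_j = (⌈(j - c) / s⌉)_c`. -/
noncomputable def sv (s : ℕ) (j : ℕ) : Fin s → ℝ :=
  fun c => ((-((((c : ℕ) : ℤ) - (j : ℤ)) / (s : ℤ)) : ℤ) : ℝ)

variable [NeZero s]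

/-- The affine function `G_j (x) = x_{j mod s} - ⌊j / s⌋`. -/
noncomputable def sG (j : ℕ) (x : Fin s → ℝ) : ℝ := x (Fin.ofNat s j) - ((j / s : ℕ) : ℝ)

lemma s_pos : 0 < s := Nat.pos_of_ne_zero (NeZero.ne s)

lemma sG_sv (j l : ℕ) : sG j (sv s l) = ((-(((j : ℤ) - l) / (s : ℤ)) : ℤ) : ℝ) := by
  have hs : (s : ℤ) ≠ 0 := by exact_mod_cast NeZero.ne s
  have h1 : ((j : ℤ) - l) / (s : ℤ) = (((j % s : ℕ) : ℤ) - l) / (s : ℤ) + ((j / s : ℕ) : ℤ) := by
    rw [← Int.add_mul_ediv_right _ _ hs]
    congr 1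
    have := Nat.mod_add_div j s
    have h2 : ((j % s : ℕ) : ℤ) + (s : ℤ) * ((j / s : ℕ) : ℤ) = j := by exact_mod_cast this
    linarith
  unfold sG sv
  rw [h1]
  have h3 : ((Fin.ofNat s j : Fin s) : ℕ) = j % s := rfl
  rw [h3]
  generalize j % s = a
  generalize j / s = b
  push_cast
  ring

lemma sG_sv_zero {j l : ℕ} (h1 : l ≤ j) (h2 : j < l + s) : sG j (sv s l) = 0 := by
  rw [sG_sv]
  have : ((j : ℤ) - l) / (s : ℤ) = 0 := by
    apply Int.ediv_eq_zero_of_lt <;> omega
  rw [this]; simp

lemma sG_sv_one {j l : ℕ} (h1 : j < l) (h2 : l ≤ j + s) : sG j (sv s l) = 1 := by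
  rw [sG_sv]
  have hs : (s : ℤ) ≠ 0 := by exact_mod_cast NeZero.ne s
  have : ((j : ℤ) - l) / (s : ℤ) = -1 := by
    have h3 : ((j : ℤ) - l) = ((j : ℤ) - l + s) + (-1) * (s : ℤ) := by ring
    rw [h3, Int.add_mul_ediv_right _ _ hs]
    have : ((j : ℤ) - l + s) / (s : ℤ) = 0 := by
      apply Int.ediv_eq_zero_of_lt <;> omega
    omega
  rw [this]; simp

lemma sG_sv_anti (j l : ℕ) : sG (j + 1) (sv s l) ≤ sG j (sv s l) := by
  rw [sG_sv, sG_sv]
  have hs : (0 : ℤ) < (s : ℤ) := by exact_mod_cast s_pos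
  have : ((j : ℤ) - l) / (s : ℤ) ≤ (((j + 1 : ℕ) : ℤ) - l) / (s : ℤ) :=
    Int.ediv_le_ediv hs (by push_cast; linarith)
  exact_mod_cast neg_le_neg this

lemma sG_add (j : ℕ) (x : Fin s → ℝ) : sG (j + s) x = sG j x - 1 := by
  unfold sG
  have h1 : (Fin.ofNat s (j + s) : Fin s) = Fin.ofNat s j := by
    apply Fin.ext
    simp [Fin.ofNat]
  rw [h1, Nat.add_div_right _ s_pos]
  push_cast
  ring

lemma sG_comb (j : ℕ) (x y : Fin s → ℝ) (a b : ℝ) (hab : a + b = 1) :
    sG j (a • x + b • y) = a * sG j x + b * sG j y := by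
  unfold sG
  simp only [Pi.add_apply, Pi.smul_apply, smul_eq_mul]
  have : ((j / s : ℕ) : ℝ) = (a + b) * ((j / s : ℕ) : ℝ) := by rw [hab, one_mul]
  linear_combination (-1 : ℝ) * this

lemma sv_injective : Function.Injective (sv s) := by
  intro l l' h
  by_contra hne
  wlog hlt : l < l' generalizing l l'
  · exact this h.symm (Ne.symm hne) (by omega)
  have h1 : sG (l' - 1) (sv s l') = 1 := sG_sv_one (by omega) (by have := s_pos (s := s); omega)
  rw [← h, sG_sv] at h1
  have hs : (0 : ℤ) < (s : ℤ) := by exact_mod_cast s_pos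
  have h2 : 0 ≤ ((((l' - 1 : ℕ) : ℤ) - l) / (s : ℤ)) := Int.ediv_nonneg (by omega) hs.le
  have h3 : (-((((l' - 1 : ℕ) : ℤ) - l) / (s : ℤ)) : ℤ) = 1 := by exact_mod_cast h1
  omega

open Classical in
/-- The vertex set of the `i`-th simplex of the chain. -/
noncomputable def scell (s : ℕ) (i : ℕ) : Finset (Fin s → ℝ) :=
  (Finset.range (s + 1)).image (fun t => sv s (i + t))

omit [NeZero s] in
lemma mem_scell {i : ℕ} {x : Fin s → ℝ} : x ∈ scell s i ↔ ∃ t, t ≤ s ∧ sv s (i + t) = x := by
  classical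
  unfold scell
  simp

lemma card_scell (i : ℕ) : (scell s i).card = s + 1 := by
  classical
  unfold scell
  rw [Finset.card_image_of_injective, Finset.card_range]
  intro a b h
  have := sv_injective h
  omega

lemma indep_scell (i : ℕ) : AffineIndependent ℝ (fun x : scell s i => (x : Fin s → ℝ)) := by
  have key : AffineIndependent ℝ (fun t : Fin (s + 1) => sv s (i + t)) := by
    rw [affineIndependent_iff]
    intro S w hw0 hw1 e he
    by_contra hne
    -- the largest index with nonzero weight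
    obtain ⟨e', he', hmax⟩ := Finset.exists_max_image (S.filter (fun u => w u ≠ 0)) id
      ⟨e, by simp [he, hne]⟩
    rw [Finset.mem_filter] at he'
    have hbig : ∀ u ∈ S, e' < u → w u = 0 := by
      intro u hu hlt
      by_contra h
      have := hmax u (by simp [hu, h])
      simp only [id] at this
      exact absurd this (not_le.mpr hlt)
    rcases Nat.eq_zero_or_pos (e' : ℕ) with h0 | hpos
    · -- then the sum of the weights is `w e'`
      have : S.sum w = w e' := by
        apply Finset.sum_eq_single_of_mem e' he'.1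
        intro u hu hne'
        apply hbig u hu
        rw [Fin.lt_def]
        have : (u : ℕ) ≠ e' := fun h => hne' (Fin.ext h)
        omega
      exact he'.2 (by rw [← this]; exact hw0)
    · have h1 : ∑ u ∈ S, w u * sG (i + e' - 1) (sv s (i + u)) = 0 := by
        have h2 := congrFun hw1 (Fin.ofNat s (i + e' - 1))
        simp only [Finset.sum_apply, Pi.smul_apply, smul_eq_mul, Pi.zero_apply] at h2
        unfold sG
        simp only [mul_sub, Finset.sum_sub_distrib]
        rw [h2, ← Finset.sum_mul, hw0]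
        simp
      have h2 : ∑ u ∈ S, w u * sG (i + e' - 1) (sv s (i + u)) = w e' := by
        rw [Finset.sum_eq_single_of_mem e' he'.1]
        · rw [sG_sv_one (by omega) (by have := e'.isLt; have := s_pos (s := s); omega), mul_one]
        · intro u hu hne'
          rcases lt_or_ge e' u with h | h
          · rw [hbig u hu h, zero_mul]
          · have h' : (u : ℕ) < e' := by
              have h3 : (u : ℕ) ≤ e' := h
              have : (u : ℕ) ≠ e' := fun h => hne' (Fin.ext h)
              omega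
            rw [sG_sv_zero (by omega) (by have := e'.isLt; omega), mul_zero]
      exact he'.2 (by rw [← h2]; exact h1)
  have h2 := key.range
  have hset : ((scell s i : Finset (Fin s → ℝ)) : Set (Fin s → ℝ)) =
      Set.range (fun t : Fin (s + 1) => sv s (i + t)) := by
    ext x
    simp only [Finset.mem_coe, mem_scell, Set.mem_range]
    constructor
    · rintro ⟨t, ht, rfl⟩
      exact ⟨⟨t, by omega⟩, rfl⟩
    · rintro ⟨t, rfl⟩
      exact ⟨t, by have := t.isLt; omega, rfl⟩
  have h3 : AffineIndependent ℝ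
      (fun x : ((scell s i : Finset (Fin s → ℝ)) : Set (Fin s → ℝ)) => (x : Fin s → ℝ)) := by
    rw [hset]; exact h2
  exact h3

/-- The inequalities satisfied by the points of `T_i`. -/
lemma hull_ineq {i : ℕ} {x : Fin s → ℝ} (hx : x ∈ convexHull ℝ (scell s i : Set (Fin s → ℝ))) :
    (∀ j, sG (j + 1) x ≤ sG j x) ∧ sG i x ≤ 1 ∧ 0 ≤ sG (i + s - 1) x := by
  have hsub : convexHull ℝ (scell s i : Set (Fin s → ℝ)) ⊆
      {x | (∀ j, sG (j + 1) x ≤ sG j x) ∧ sG i x ≤ 1 ∧ 0 ≤ sG (i + s - 1) x} := by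
    apply convexHull_min
    · intro y hy
      obtain ⟨t, ht, rfl⟩ := mem_scell.mp (Finset.mem_coe.mp hy)
      refine ⟨fun j => sG_sv_anti j _, ?_, ?_⟩
      · rcases Nat.eq_zero_or_pos t with h | h
        · subst h
          rw [sG_sv_zero (by omega) (by have := s_pos (s := s); omega)]; norm_num
        · rw [sG_sv_one (by omega) (by omega)]
      · have hs := s_pos (s := s)
        rcases Nat.lt_or_ge t s with h | h
        · rw [sG_sv_zero (by omega) (by omega)]
        · rw [sG_sv_one (by omega) (by omega)]; norm_num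
    · intro a ha b hb p q hp hq hpq
      refine ⟨fun j => ?_, ?_, ?_⟩
      · rw [sG_comb _ _ _ _ _ hpq, sG_comb _ _ _ _ _ hpq]
        have h1 := mul_le_mul_of_nonneg_left (ha.1 j) hp
        have h2 := mul_le_mul_of_nonneg_left (hb.1 j) hq
        linarith
      · rw [sG_comb _ _ _ _ _ hpq]
        have h1 := mul_le_mul_of_nonneg_left ha.2.1 hp
        have h2 := mul_le_mul_of_nonneg_left hb.2.1 hq
        linarith
      · rw [sG_comb _ _ _ _ _ hpq]
        have h1 := mul_nonneg hp ha.2.2
        have h2 := mul_nonneg hq hb.2.2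
        linarith
  exact hsub hx

/-- The auxiliary sequence `1, G_i, …, G_{i+s-1}, 0, 0, …`. -/
noncomputable def sH (i : ℕ) (x : Fin s → ℝ) (t : ℕ) : ℝ :=
  if t = 0 then 1 else if t ≤ s then sG (i + t - 1) x else 0

lemma sum_sH (i : ℕ) (x : Fin s → ℝ) :
    ∑ t ∈ Finset.range (s + 1), (sH i x t - sH i x (t + 1)) = 1 := by
  rw [Finset.sum_range_sub']
  simp [sH]

/-- Every point is the combination of the vertices of `T_i` with the weights `H_t - H_{t+1}`. -/
lemma sum_sH_smul (i : ℕ) (x : Fin s → ℝ) :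
    ∑ t ∈ Finset.range (s + 1), (sH i x t - sH i x (t + 1)) • sv s (i + t) = x := by
  have hs := s_pos (s := s)
  have hs' : (s : ℤ) ≠ 0 := by exact_mod_cast NeZero.ne s
  funext c
  -- the index `τ < s` with `(i + τ) % s = c`
  obtain ⟨τ, hτ, hτc⟩ : ∃ τ, τ < s ∧ (i + τ) % s = (c : ℕ) := by
    refine ⟨(c + s - i % s) % s, Nat.mod_lt _ hs, ?_⟩
    have hi := Nat.mod_lt i hs
    have : (i + (c + s - i % s) % s) % s = (i % s + (c + s - i % s)) % s := by
      rw [Nat.add_mod, Nat.mod_mod, ← Nat.add_mod]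
      conv_rhs => rw [Nat.add_mod, Nat.mod_mod, ← Nat.add_mod]
    rw [this]
    have h2 : i % s + (↑c + s - i % s) = c + s := by omega
    rw [h2, Nat.add_mod_right, Nat.mod_eq_of_lt c.isLt]
  set q : ℕ := (i + τ) / s with hq
  have hqτ : i + τ = s * q + c := by
    have := Nat.div_add_mod (i + τ) s
    rw [hτc] at this
    exact this.symm
  have hv : ∀ t, t ≤ s → sv s (i + t) c = q + (if τ < t then 1 else 0) := by
    intro t ht
    unfold sv
    have h1 : (((c : ℕ) : ℤ) - ((i + t : ℕ) : ℤ)) = ((τ : ℤ) - t) + (-(q : ℤ)) * (s : ℤ) := by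
      have : ((i + τ : ℕ) : ℤ) = ((s * q + c : ℕ) : ℤ) := by rw [hqτ]
      push_cast at this ⊢
      linarith
    rw [h1, Int.add_mul_ediv_right _ _ hs']
    by_cases h : τ < t
    · have h2 : ((τ : ℤ) - t) / (s : ℤ) = -1 := by
        have h3 : ((τ : ℤ) - t) = ((τ : ℤ) - t + s) + (-1) * (s : ℤ) := by ring
        rw [h3, Int.add_mul_ediv_right _ _ hs']
        have : ((τ : ℤ) - t + s) / (s : ℤ) = 0 := by
          apply Int.ediv_eq_zero_of_lt <;> omega
        omega
      rw [h2, if_pos h]
      push_cast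
      ring
    · have h2 : ((τ : ℤ) - t) / (s : ℤ) = 0 := by
        apply Int.ediv_eq_zero_of_lt <;> omega
      rw [h2, if_neg h]
      push_cast
      ring
  have hG : sG (i + τ) x = x c - q := by
    unfold sG
    have : (Fin.ofNat s (i + τ) : Fin s) = c := Fin.ext hτc
    rw [this]
  simp only [Finset.sum_apply, Pi.smul_apply, smul_eq_mul]
  have h1 : ∑ t ∈ Finset.range (s + 1), (sH i x t - sH i x (t + 1)) * sv s (i + t) c =
      ∑ t ∈ Finset.range (s + 1), ((sH i x t - sH i x (t + 1)) * q +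
        (if τ < t then (sH i x t - sH i x (t + 1)) else 0)) := by
    apply Finset.sum_congr rfl
    intro t ht
    rw [hv t (by have := Finset.mem_range.mp ht; omega)]
    split_ifs <;> ring
  rw [h1, Finset.sum_add_distrib, ← Finset.sum_mul, sum_sH, one_mul, ← Finset.sum_filter]
  have h2 : (Finset.range (s + 1)).filter (fun t => τ < t) = Finset.Ico (τ + 1) (s + 1) := by
    ext t
    simp only [Finset.mem_filter, Finset.mem_range, Finset.mem_Ico]
    omega
  rw [h2, Finset.sum_Ico_eq_sum_range]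
  have h3 : ∑ k ∈ Finset.range (s + 1 - (τ + 1)), (sH i x (τ + 1 + k) - sH i x (τ + 1 + k + 1)) =
      sH i x (τ + 1) - sH i x (s + 1) := by
    have := Finset.sum_range_sub' (fun k => sH i x (τ + 1 + k)) (s + 1 - (τ + 1))
    simp only [add_zero] at this
    have h4 : τ + 1 + (s + 1 - (τ + 1)) = s + 1 := by omega
    rw [h4] at this
    simpa only [add_assoc] using this
  rw [h3]
  have h5 : sH i x (τ + 1) = sG (i + τ) x := by
    unfold sH
    rw [if_neg (by omega), if_pos (by omega)]
    congr 1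
  have h6 : sH i x (s + 1) = 0 := by
    unfold sH
    rw [if_neg (by omega), if_neg (by omega)]
  rw [h5, h6, hG]
  ring

/-- A point satisfying the inequalities lies in the hull of those `v_{i+t}` whose weight may be
nonzero. -/
lemma mem_hull_of {i : ℕ} {x : Fin s → ℝ} {S : Set (Fin s → ℝ)}
    (hw : ∀ t ≤ s, sH i x (t + 1) ≤ sH i x t)
    (hS : ∀ t ≤ s, sH i x (t + 1) ≠ sH i x t → sv s (i + t) ∈ S) :
    x ∈ convexHull ℝ S := by
  classical
  have h1 := sum_sH_smul i x
  have h2 := sum_sH i x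
  set F := (Finset.range (s + 1)).filter (fun t => sH i x (t + 1) ≠ sH i x t) with hF
  have h3 : ∑ t ∈ F, (sH i x t - sH i x (t + 1)) • sv s (i + t) = x := by
    conv_rhs => rw [← h1]
    apply Finset.sum_subset (Finset.filter_subset _ _)
    intro t ht htn
    simp only [Finset.mem_filter, not_and, not_not] at htn
    rw [htn ht, sub_self, zero_smul]
  have h4 : ∑ t ∈ F, (sH i x t - sH i x (t + 1)) = 1 := by
    rw [← h2]
    apply Finset.sum_subset (Finset.filter_subset _ _)
    intro t ht htn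
    simp only [Finset.mem_filter, not_and, not_not] at htn
    rw [htn ht, sub_self]
  rw [← h3]
  apply (convex_convexHull ℝ S).sum_mem
  · intro t ht
    have := hw t (by have := Finset.mem_range.mp (Finset.mem_of_mem_filter t ht); omega)
    linarith
  · exact h4
  · intro t ht
    rw [hF, Finset.mem_filter, Finset.mem_range] at ht
    exact subset_convexHull ℝ S (hS t (by omega) ht.2)

lemma sH_anti {i : ℕ} {x : Fin s → ℝ} (h1 : ∀ j, sG (j + 1) x ≤ sG j x)
    (h2 : sG i x ≤ 1) (h3 : 0 ≤ sG (i + s - 1) x) (t : ℕ) (ht : t ≤ s) :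
    sH i x (t + 1) ≤ sH i x t := by
  have hs := s_pos (s := s)
  unfold sH
  rw [if_neg (by omega)]
  rcases Nat.eq_zero_or_pos t with h | h
  · subst h
    rw [if_pos (by omega), if_pos rfl]
    simpa using h2
  · rcases Nat.lt_or_ge t s with h4 | h4
    · rw [if_pos (by omega), if_neg (by omega), if_pos ht]
      have := h1 (i + t - 1)
      have h5 : i + t - 1 + 1 = i + (t + 1) - 1 := by omega
      rwa [h5] at this
    · have h5 : t = s := by omega
      rw [if_neg (by omega), if_neg (by omega), if_pos ht, h5]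
      exact h3

/-- The points of `T_i` are exactly those satisfying the inequalities. -/
lemma mem_hull_scell {i : ℕ} {x : Fin s → ℝ} (h1 : ∀ j, sG (j + 1) x ≤ sG j x)
    (h2 : sG i x ≤ 1) (h3 : 0 ≤ sG (i + s - 1) x) :
    x ∈ convexHull ℝ (scell s i : Set (Fin s → ℝ)) := by
  refine mem_hull_of (i := i) (sH_anti h1 h2 h3) ?_
  intro t ht _
  exact Finset.mem_coe.mpr (mem_scell.mpr ⟨t, ht, rfl⟩)

lemma anti_le {x : Fin s → ℝ} (h1 : ∀ j, sG (j + 1) x ≤ sG j x) {a b : ℕ} (hab : a ≤ b) :
    sG b x ≤ sG a x :=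
  antitone_nat_of_succ_le (f := fun j => sG j x) h1 hab

lemma inter_scell_lt {i j : ℕ} (hij : i < j) :
    convexHull ℝ (scell s i : Set (Fin s → ℝ)) ∩ convexHull ℝ (scell s j : Set (Fin s → ℝ)) ⊆
      convexHull ℝ ((scell s i : Set (Fin s → ℝ)) ∩ (scell s j : Set (Fin s → ℝ))) := by
  rintro x ⟨hx1, hx2⟩
  have hs := s_pos (s := s)
  obtain ⟨h1, h2, h3⟩ := hull_ineq hx1
  obtain ⟨-, h5, h6⟩ := hull_ineq hx2
  have h7 : 1 ≤ sG (j - 1) x := by
    have := sG_add (j - 1) x
    have h8 : j - 1 + s = j + s - 1 := by omega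
    rw [h8] at this
    linarith
  have h9 : ∀ l, i ≤ l → l ≤ j - 1 → sG l x = 1 := by
    intro l hl hl'
    have ha := anti_le h1 hl
    have hb := anti_le h1 hl'
    linarith
  have h10 : j ≤ i + s := by
    by_contra hcon
    have ha := h9 (i + s) (by omega) (by omega)
    have hb := h9 i (by omega) (by omega)
    have hc := sG_add i x
    linarith
  refine mem_hull_of (i := i) (sH_anti h1 h2 h3) ?_
  intro t ht hne
  refine ⟨Finset.mem_coe.mpr (mem_scell.mpr ⟨t, ht, rfl⟩), ?_⟩
  have hH : ∀ u, u ≤ j - i → sH i x u = 1 := by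
    intro u hu
    unfold sH
    rcases Nat.eq_zero_or_pos u with h | h
    · rw [if_pos h]
    · rw [if_neg (by omega), if_pos (by omega)]
      exact h9 _ (by omega) (by omega)
  have htj : j ≤ i + t := by
    by_contra hcon
    exact hne (by rw [hH (t + 1) (by omega), hH t (by omega)])
  refine Finset.mem_coe.mpr (mem_scell.mpr ⟨i + t - j, by omega, ?_⟩)
  congr 1
  omega

/-- The triangulation formed by the simplices `T_0, …, T_N` of the staircase chain. -/
noncomputable def chain (s : ℕ) [NeZero s] (N : ℕ) : Triangulation s where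
  cells := by classical exact (Finset.range (N + 1)).image (scell s)
  card_cell := by
    classical
    intro T hT
    obtain ⟨i, -, rfl⟩ := Finset.mem_image.mp hT
    exact card_scell i
  indep := by
    classical
    intro T hT
    obtain ⟨i, -, rfl⟩ := Finset.mem_image.mp hT
    exact indep_scell i
  inter := by
    classical
    intro T hT T' hT'
    obtain ⟨i, -, rfl⟩ := Finset.mem_image.mp hT
    obtain ⟨j, -, rfl⟩ := Finset.mem_image.mp hT'
    rcases lt_trichotomy i j with h | h | h
    · exact inter_scell_lt h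
    · subst h
      rw [Set.inter_self, Set.inter_self]
    · rw [Set.inter_comm, Set.inter_comm (scell s i : Set (Fin s → ℝ))]
      exact inter_scell_lt h

lemma mem_chain_cells {N : ℕ} {T : Finset (Fin s → ℝ)} :
    T ∈ (chain s N).cells ↔ ∃ i, i ≤ N ∧ scell s i = T := by
  classical
  unfold chain
  simp

end Run7.h662
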