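import Mathlib
import Pool.Agent.Run7.h662.SplineDefs
import Pool.Agent.Run7.h662.StairChain
import Pool.Agent.Run7.h662.LineJet

/-!
# The conserved coefficient along the staircase chain
-/

namespace Run7.h662

open MvPolynomial

variable {s : ℕ} [NeZero s]

lemma exists_idx (i : ℕ) (c : Fin s) : ∃ τ, τ < s ∧ Fin.ofNat s (i + τ) = c := by
  have hs := s_pos (s := s)
  refine ⟨(c + s - i % s) % s, Nat.mod_lt _ hs, ?_⟩
  apply Fin.ext
  change (i + (c + s - i % s) % s) % s = c
  have hi := Nat.mod_lt i hs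
  have : (i + (c + s - i % s) % s) % s = (i % s + (c + s - i % s)) % s := by
    rw [Nat.add_mod, Nat.mod_mod, ← Nat.add_mod]
    conv_rhs => rw [Nat.add_mod, Nat.mod_mod, ← Nat.add_mod]
  rw [this]
  have h2 : i % s + (↑c + s - i % s) = c + s := by omega
  rw [h2, Nat.add_mod_right, Nat.mod_eq_of_lt c.isLt]

lemma idx_unique {i τ τ' : ℕ} (h : τ < s) (h' : τ' < s)
    (he : (Fin.ofNat s (i + τ) : Fin s) = Fin.ofNat s (i + τ')) : τ = τ' := by
  have h1 : (i + τ) % s = (i + τ') % s := congrArg Fin.val he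
  have h2 : τ ≡ τ' [MOD s] := Nat.ModEq.add_left_cancel' i h1
  exact Nat.ModEq.eq_of_lt_of_lt h2 h h'

/-- The side of the box in coordinate `c`. -/
def boxSide (s i : ℕ) [NeZero s] (c : Fin s) : Set ℝ :=
  {y | ∀ t, t < s → Fin.ofNat s (i + t) = c →
    ((s : ℝ) - t) / (s + 1) < y - (((i + t) / s : ℕ) : ℝ) ∧
      y - (((i + t) / s : ℕ) : ℝ) < ((s : ℝ) - t + 1 / 2) / (s + 1)}

lemma boxSide_infinite (i : ℕ) (c : Fin s) : (boxSide s i c).Infinite := by
  obtain ⟨τ, hτ, hτc⟩ := exists_idx i c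
  have hpos : (0 : ℝ) < (s : ℝ) + 1 := by positivity
  have hlt : (((i + τ) / s : ℕ) : ℝ) + ((s : ℝ) - τ) / (s + 1) <
      (((i + τ) / s : ℕ) : ℝ) + ((s : ℝ) - τ + 1 / 2) / (s + 1) := by
    have : ((s : ℝ) - τ) / (s + 1) < ((s : ℝ) - τ + 1 / 2) / (s + 1) :=
      div_lt_div_of_pos_right (by linarith) hpos
    linarith
  apply (Set.Ioo_infinite hlt).mono
  rintro y ⟨hy1, hy2⟩ t ht htc
  have : t = τ := idx_unique ht hτ (htc.trans hτc.symm)
  subst this
  constructor <;> linarith

lemma sG_box {i : ℕ} {x : Fin s → ℝ} (hx : ∀ c, x c ∈ boxSide s i c) {t : ℕ} (ht : t < s) :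
    ((s : ℝ) - t) / (s + 1) < sG (i + t) x ∧ sG (i + t) x < ((s : ℝ) - t + 1 / 2) / (s + 1) :=
  hx (Fin.ofNat s (i + t)) t ht rfl

lemma mem_hull_scell' {i : ℕ} {x : Fin s → ℝ}
    (h1 : ∀ t, t + 1 < s → sG (i + t + 1) x ≤ sG (i + t) x)
    (h2 : sG i x ≤ 1) (h3 : 0 ≤ sG (i + s - 1) x) :
    x ∈ convexHull ℝ (scell s i : Set (Fin s → ℝ)) := by
  have hs := s_pos (s := s)
  refine mem_hull_of (i := i) ?_ ?_
  · intro t ht
    unfold sH
    rw [if_neg (by omega)]
    rcases Nat.eq_zero_or_pos t with h | h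
    · subst h
      rw [if_pos (by omega), if_pos rfl]
      simpa using h2
    · rcases Nat.lt_or_ge t s with h4 | h4
      · rw [if_pos (by omega), if_neg (by omega), if_pos ht]
        have := h1 (t - 1) (by omega)
        have h5 : i + (t - 1) + 1 = i + (t + 1) - 1 := by omega
        have h6 : i + (t - 1) = i + t - 1 := by omega
        rwa [h5, h6] at this
      · have h5 : t = s := by omega
        rw [if_neg (by omega), if_neg (by omega), if_pos ht, h5]
        exact h3
  · intro t ht _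
    exact Finset.mem_coe.mpr (mem_scell.mpr ⟨t, ht, rfl⟩)

/-- The box lies in the cell. -/
lemma box_mem {i : ℕ} {x : Fin s → ℝ} (hx : ∀ c, x c ∈ boxSide s i c) :
    x ∈ convexHull ℝ (scell s i : Set (Fin s → ℝ)) := by
  have hs := s_pos (s := s)
  have hpos : (0 : ℝ) < (s : ℝ) + 1 := by positivity
  apply mem_hull_scell'
  · intro t ht
    have h1 := (sG_box hx (t := t) (by omega)).1
    have h2 := (sG_box hx (t := t + 1) ht).2
    rw [add_assoc]
    have h3 : ((s : ℝ) - (t + 1 : ℕ) + 1 / 2) / (s + 1) ≤ ((s : ℝ) - t) / (s + 1) := by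
      apply div_le_div_of_nonneg_right _ hpos.le
      push_cast; linarith
    linarith
  · have h1 := (sG_box hx (t := 0) hs).2
    simp only [add_zero] at h1
    have h3 : ((s : ℝ) - (0 : ℕ) + 1 / 2) / (s + 1) ≤ 1 := by
      rw [div_le_one hpos]; push_cast; linarith
    linarith
  · have h1 := (sG_box hx (t := s - 1) (by omega)).1
    have h2 : i + (s - 1) = i + s - 1 := by omega
    rw [h2] at h1
    have h3 : 0 ≤ ((s : ℝ) - ((s - 1 : ℕ) : ℝ)) / (s + 1) := by
      apply div_nonneg _ hpos.le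
      have : ((s - 1 : ℕ) : ℝ) = (s : ℝ) - 1 := by
        rw [Nat.cast_sub (by omega)]; simp
      rw [this]; linarith
    linarith

lemma sG_update_same (i : ℕ) (x : Fin s → ℝ) (t : ℝ) :
    sG i (Function.update x (Fin.ofNat s i) ((((i / s : ℕ) : ℝ) + 1) + t)) = 1 + t := by
  unfold sG
  simp
  ring

lemma sG_update_ne {i u : ℕ} (hu0 : 0 < u) (hu : u < s) (x : Fin s → ℝ) (y : ℝ) :
    sG (i + u) (Function.update x (Fin.ofNat s i) y) = sG (i + u) x := by
  unfold sG
  have : (Fin.ofNat s (i + u) : Fin s) ≠ Fin.ofNat s i := by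
    intro h
    have := idx_unique (i := i) (τ := u) (τ' := 0) hu (s_pos (s := s)) h
    omega
  rw [Function.update_of_ne this]

/-- To the left of the common facet of `T_i` and `T_{i+1}`. -/
lemma left_mem {i : ℕ} {x : Fin s → ℝ} (hx : ∀ c, x c ∈ boxSide s i c) {t : ℝ}
    (ht : -(1 / ((s : ℝ) + 1)) < t) (ht0 : t ≤ 0) :
    Function.update x (Fin.ofNat s i) ((((i / s : ℕ) : ℝ) + 1) + t) ∈
      convexHull ℝ (scell s i : Set (Fin s → ℝ)) := by
  have hs := s_pos (s := s)
  have hs1 : (1 : ℝ) ≤ s := by exact_mod_cast hs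
  have hpos : (0 : ℝ) < (s : ℝ) + 1 := by positivity
  have hx' := fun t ht => sG_box hx (t := t) ht
  have hdiv : (1 : ℝ) - 1 / (s + 1) = s / (s + 1) := by field_simp; ring
  apply mem_hull_scell'
  · intro u hu
    rw [add_assoc, sG_update_ne (by omega) hu]
    have h2 := (hx' (u + 1) hu).2
    rcases Nat.eq_zero_or_pos u with h | h
    · subst h
      rw [add_zero, sG_update_same]
      have h3 : ((s : ℝ) - ((0 + 1 : ℕ) : ℝ) + 1 / 2) / (s + 1) ≤ (s : ℝ) / (s + 1) := by
        apply div_le_div_of_nonneg_right _ hpos.le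
        push_cast; linarith
      linarith
    · rw [sG_update_ne h (by omega)]
      have h1 := (hx' u (by omega)).1
      have h3 : ((s : ℝ) - (u + 1 : ℕ) + 1 / 2) / (s + 1) ≤ ((s : ℝ) - u) / (s + 1) := by
        apply div_le_div_of_nonneg_right _ hpos.le
        push_cast; linarith
      linarith
  · rw [sG_update_same]; linarith
  · rcases Nat.lt_or_ge 1 s with h | h
    · have h2 : i + s - 1 = i + (s - 1) := by omega
      rw [h2, sG_update_ne (by omega) (by omega)]
      have h1 := (hx' (s - 1) (by omega)).1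
      have h3 : 0 ≤ ((s : ℝ) - ((s - 1 : ℕ) : ℝ)) / (s + 1) := by
        apply div_nonneg _ hpos.le
        have : ((s - 1 : ℕ) : ℝ) = (s : ℝ) - 1 := by
          rw [Nat.cast_sub (by omega)]; simp
        rw [this]; linarith
      linarith
    · have h2 : i + s - 1 = i := by omega
      rw [h2, sG_update_same]
      have : 0 ≤ (s : ℝ) / (s + 1) := by positivity
      linarith

/-- To the right of the common facet of `T_i` and `T_{i+1}`. -/
lemma right_mem {i : ℕ} {x : Fin s → ℝ} (hx : ∀ c, x c ∈ boxSide s i c) {t : ℝ}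
    (ht0 : 0 ≤ t) (ht : t < 1 / ((s : ℝ) + 1)) :
    Function.update x (Fin.ofNat s i) ((((i / s : ℕ) : ℝ) + 1) + t) ∈
      convexHull ℝ (scell s (i + 1) : Set (Fin s → ℝ)) := by
  have hs := s_pos (s := s)
  have hs1 : (1 : ℝ) ≤ s := by exact_mod_cast hs
  have hpos : (0 : ℝ) < (s : ℝ) + 1 := by positivity
  have hx' := fun t ht => sG_box hx (t := t) ht
  have hlast : sG (i + s) (Function.update x (Fin.ofNat s i) ((((i / s : ℕ) : ℝ) + 1) + t)) =
      t := by
    rw [sG_add, sG_update_same]; ring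
  have hone : 1 / ((s : ℝ) + 1) ≤ 1 := by
    rw [div_le_one hpos]; linarith
  apply mem_hull_scell'
  · intro u hu
    have h0 : i + 1 + u = i + (u + 1) := by omega
    rw [h0, sG_update_ne (by omega) hu]
    have h1 := (hx' (u + 1) hu).1
    rcases Nat.lt_or_ge (u + 2) s with h | h
    · have h0 : i + (u + 1) + 1 = i + (u + 2) := by omega
      rw [h0, sG_update_ne (by omega) h]
      have h2 := (hx' (u + 2) h).2
      have h3 : ((s : ℝ) - (u + 2 : ℕ) + 1 / 2) / (s + 1) ≤ ((s : ℝ) - (u + 1 : ℕ)) / (s + 1) := by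
        apply div_le_div_of_nonneg_right _ hpos.le
        push_cast; linarith
      linarith
    · have h0 : i + (u + 1) + 1 = i + s := by omega
      rw [h0, hlast]
      have h3 : 1 / ((s : ℝ) + 1) ≤ ((s : ℝ) - (u + 1 : ℕ)) / (s + 1) := by
        apply div_le_div_of_nonneg_right _ hpos.le
        have h4 : u + 1 + 1 ≤ s := by omega
        have h5 : (((u + 1 + 1 : ℕ)) : ℝ) ≤ s := by exact_mod_cast h4
        push_cast at h5 ⊢
        linarith
      linarith
  · rcases Nat.lt_or_ge 1 s with h | h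
    · rw [sG_update_ne (by omega) h]
      have h2 := (hx' 1 h).2
      have h3 : ((s : ℝ) - (1 : ℕ) + 1 / 2) / (s + 1) ≤ 1 := by
        rw [div_le_one hpos]; push_cast; linarith
      linarith
    · have h2 : i + 1 = i + s := by omega
      rw [h2, hlast]; linarith
  · have h2 : i + 1 + s - 1 = i + s := by omega
    rw [h2, hlast]; exact ht0

lemma hull_subset_region {N i : ℕ} (hi : i ≤ N) :
    convexHull ℝ (scell s i : Set (Fin s → ℝ)) ⊆ (chain s N).region :=
  fun _ hx => ⟨scell s i, mem_chain_cells.mpr ⟨i, hi, rfl⟩, hx⟩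

/-- Conservation across one facet. -/
lemma step {N k r : ℕ} {f : (Fin s → ℝ) → ℝ} (hf : f ∈ (chain s N).splines k r)
    {α : Fin s →₀ ℕ} (hα : ∀ c, α c ≤ r) (hk : (α.sum fun _ e => e) = k)
    {i : ℕ} (hi : i + 1 ≤ N) {p q : MvPolynomial (Fin s) ℝ} (hp : p.totalDegree ≤ k)
    (hq : q.totalDegree ≤ k)
    (hfp : ∀ x ∈ convexHull ℝ (scell s i : Set (Fin s → ℝ)), f x = MvPolynomial.eval x p)
    (hfq : ∀ x ∈ convexHull ℝ (scell s (i + 1) : Set (Fin s → ℝ)), f x = MvPolynomial.eval x q) :
    p.coeff α = q.coeff α := by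
  classical
  obtain ⟨-, hf2, -⟩ := hf
  set c : Fin s := Fin.ofNat s i with hc
  set a : ℝ := ((i / s : ℕ) : ℝ) + 1 with ha
  have hpos : (0 : ℝ) < (s : ℝ) + 1 := by positivity
  have hε : (0 : ℝ) < 1 / ((s : ℝ) + 1) := by positivity
  -- the coefficients along lines
  have hline : ∀ x : Fin s → ℝ, (∀ c, x c ∈ boxSide s i c) → ∀ m ≤ r,
      MvPolynomial.eval x ((sub1 c a p).coeff m) = MvPolynomial.eval x ((sub1 c a q).coeff m) := by
    intro x hx m hm
    have h1 : ∀ D : MvPolynomial (Fin s) ℝ, MvPolynomial.eval x ((sub1 c a D).coeff m) =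
        (MvPolynomial.aeval (fun j => if j = c then Polynomial.C a + Polynomial.X
        else Polynomial.C (x j)) D : Polynomial ℝ).coeff m := by
      intro D
      rw [← map_sub1, Polynomial.coeff_map]
    rw [h1, h1]
    have hcd : ContDiff ℝ r (fun t : ℝ => Function.update x c (a + t)) := by
      rw [contDiff_pi]
      intro j
      by_cases hj : j = c
      · subst hj
        simp only [Function.update_self]
        fun_prop
      · simp only [Function.update_of_ne hj]
        exact contDiff_const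
    have hg : ContDiffOn ℝ r (fun t : ℝ => f (Function.update x c (a + t)))
        (Set.Ioo (-(1 / ((s : ℝ) + 1))) (1 / ((s : ℝ) + 1))) := by
      refine hf2.comp hcd.contDiffOn ?_
      intro t ht
      rcases le_total t 0 with h | h
      · exact hull_subset_region (by omega) (left_mem hx ht.1 h)
      · exact hull_subset_region hi (right_mem hx h ht.2)
    refine coeff_eq_of_contDiffOn hε hg _ _ ?_ ?_ m hm
    · intro t ht1 ht2
      rw [eval_line]
      exact hfp _ (left_mem hx ht1 ht2)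
    · intro t ht1 ht2
      rw [eval_line]
      exact hfq _ (right_mem hx ht1 ht2)
  -- Zariski density of the box
  have hcoef : (sub1 c a p).coeff (α c) = (sub1 c a q).coeff (α c) := by
    apply MvPolynomial.funext_set (boxSide s i) (boxSide_infinite i)
    intro x hx
    exact hline x (fun c => hx c (Set.mem_univ c)) (α c) (hα c)
  have hsum : (α.sum fun _ e => e) = ((α.erase c).sum fun _ e => e) + α c := by
    conv_lhs => rw [← Finsupp.erase_add_single c α]
    rw [Finsupp.sum_add_index' (fun _ => rfl) (fun _ _ _ => rfl), Finsupp.sum_single_index rfl]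
  have h2 := coeff_sub1 c a p (α.erase c) (α c) (by simp) (by omega)
  have h3 := coeff_sub1 c a q (α.erase c) (α c) (by simp) (by omega)
  rw [Finsupp.erase_add_single] at h2 h3
  rw [← h2, ← h3, hcoef]

/-- Two polynomials which agree on a cell are equal. -/
lemma eq_of_hull {i : ℕ} {p q : MvPolynomial (Fin s) ℝ}
    (h : ∀ x ∈ convexHull ℝ (scell s i : Set (Fin s → ℝ)),
      MvPolynomial.eval x p = MvPolynomial.eval x q) : p = q := by
  apply MvPolynomial.funext_set (boxSide s i) (boxSide_infinite i)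
  intro x hx
  exact h x (box_mem (fun c => hx c (Set.mem_univ c)))

/-- Conservation along the chain. -/
lemma conserved {N k r : ℕ} {f : (Fin s → ℝ) → ℝ} (hf : f ∈ (chain s N).splines k r)
    {α : Fin s →₀ ℕ} (hα : ∀ c, α c ≤ r) (hk : (α.sum fun _ e => e) = k)
    {p : MvPolynomial (Fin s) ℝ}
    (hfp : ∀ x ∈ convexHull ℝ (scell s 0 : Set (Fin s → ℝ)), f x = MvPolynomial.eval x p) :
    ∀ i ≤ N, ∀ q : MvPolynomial (Fin s) ℝ, q.totalDegree ≤ k →
      (∀ x ∈ convexHull ℝ (scell s i : Set (Fin s → ℝ)), f x = MvPolynomial.eval x q) →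
      p.coeff α = q.coeff α := by
  intro i
  induction i with
  | zero =>
    intro _ q _ hfq
    have : p = q := eq_of_hull (i := 0) (fun x hx => by rw [← hfp x hx, hfq x hx])
    rw [this]
  | succ i ih =>
    intro hi q hq hfq
    obtain ⟨p', hp', hfp'⟩ := hf.2.2 (scell s i) (mem_chain_cells.mpr ⟨i, by omega, rfl⟩)
    rw [ih (by omega) p' hp' hfp']
    exact step hf hα hk hi hp' hq hfp' hfq

lemma hull_coord {i : ℕ} {x : Fin s → ℝ} (hx : x ∈ convexHull ℝ (scell s i : Set (Fin s → ℝ)))
    {τ : ℕ} (hτ : τ < s) : 0 ≤ sG (i + τ) x ∧ sG (i + τ) x ≤ 1 := by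
  obtain ⟨h1, h2, h3⟩ := hull_ineq hx
  have h4 := anti_le h1 (show i ≤ i + τ by omega)
  have h5 := anti_le h1 (show i + τ ≤ i + s - 1 by omega)
  constructor <;> linarith

lemma hull_dist {i : ℕ} {x y : Fin s → ℝ}
    (hx : x ∈ convexHull ℝ (scell s i : Set (Fin s → ℝ)))
    (hy : y ∈ convexHull ℝ (scell s i : Set (Fin s → ℝ))) (c : Fin s) : |x c - y c| ≤ 1 := by
  obtain ⟨τ, hτ, rfl⟩ := exists_idx i c
  have h1 := hull_coord hx hτ
  have h2 := hull_coord hy hτ
  unfold sG at h1 h2
  rw [abs_le]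
  constructor <;> linarith [h1.1, h1.2, h2.1, h2.2]

lemma mstar_dist {N : ℕ} (v : Fin s → ℝ) (c : Fin s) :
    ∀ m x, x ∈ (chain s N).mstar v m → |x c - v c| ≤ m := by
  intro m
  induction m with
  | zero =>
    intro x hx
    have : x = v := hx
    simp [this]
  | succ m ih =>
    rintro x ⟨T, hT, ⟨y, hy1, hy2⟩, hx⟩
    obtain ⟨i, -, rfl⟩ := mem_chain_cells.mp hT
    have h1 := hull_dist hx hy1 c
    have h2 := ih y hy2
    have h3 : x c - v c = (x c - y c) + (y c - v c) := by ring
    rw [h3]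
    refine (abs_add_le _ _).trans ?_
    push_cast
    linarith

omit [NeZero s] in
lemma contDiff_eval (p : MvPolynomial (Fin s) ℝ) (r : ℕ) :
    ContDiff ℝ r (fun x : Fin s → ℝ => MvPolynomial.eval x p) := by
  have h := AnalyticOnNhd.eval_mvPolynomial (𝕜 := ℝ) p
  exact h.contDiff.of_le le_top

/-- The spaces `S_k^r` on the staircase chains have no uniformly local bases for `k ≤ s r`. -/
theorem chain_not_local (m k r : ℕ) (hk : k ≤ s * r) :
    ∃ N, ¬ (chain s N).HasBasisInStars k r m := by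
  classical
  have hs := s_pos (s := s)
  -- the exponent
  obtain ⟨α, hα, hαk⟩ : ∃ α : Fin s →₀ ℕ, (∀ c, α c ≤ r) ∧ (α.sum fun _ e => e) = k := by
    refine ⟨Finsupp.equivFunOnFinite.symm (fun c : Fin s => min r (k - c * r)),
      fun c => by simp, ?_⟩
    rw [Finsupp.sum_fintype _ _ (fun _ => rfl)]
    simp only [Finsupp.equivFunOnFinite_symm_apply_apply]
    rw [Fin.sum_univ_eq_sum_range (fun c => min r (k - c * r)) s]
    have : ∀ n, ∑ c ∈ Finset.range n, min r (k - c * r) = min k (n * r) := by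
      intro n
      induction n with
      | zero => simp
      | succ n ih =>
        rw [Finset.sum_range_succ, ih, Nat.succ_mul]
        omega
    rw [this]
    omega
  refine ⟨s * (2 * m + 2), ?_⟩
  set N := s * (2 * m + 2) with hN
  rintro ⟨ι, B, hB⟩
  -- the submodule of splines whose coefficient on `T_0` vanishes
  let W : Submodule ℝ ((chain s N).splines k r) :=
    { carrier := {f | ∃ p : MvPolynomial (Fin s) ℝ, (∀ x ∈ convexHull ℝ
          (scell s 0 : Set (Fin s → ℝ)), (f : (Fin s → ℝ) → ℝ) x = MvPolynomial.eval x p) ∧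
            p.coeff α = 0}
      zero_mem' := ⟨0, fun x _ => by simp, by simp⟩
      add_mem' := by
        rintro f g ⟨p, hp, hp'⟩ ⟨q, hq, hq'⟩
        refine ⟨p + q, fun x hx => ?_, by simp [hp', hq']⟩
        simp [hp x hx, hq x hx]
      smul_mem' := by
        rintro c f ⟨p, hp, hp'⟩
        refine ⟨c • p, fun x hx => ?_, by simp [hp']⟩
        simp [hp x hx] }
  have hBW : ∀ i, B i ∈ W := by
    intro i
    obtain ⟨v, -, hsupp⟩ := hB i
    have hmem := (B i).2
    obtain ⟨p, hp, hfp⟩ := hmem.2.2 (scell s 0) (mem_chain_cells.mpr ⟨0, by omega, rfl⟩)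
    refine ⟨p, hfp, ?_⟩
    -- `B i` vanishes on one of the two end cells
    have hend : ∃ e ≤ N, ∀ x ∈ convexHull ℝ (scell s e : Set (Fin s → ℝ)),
        (B i : (Fin s → ℝ) → ℝ) x = 0 := by
      have hvan : ∀ x, x ∉ (chain s N).mstar v m → (B i : (Fin s → ℝ) → ℝ) x = 0 := by
        intro x hx
        by_contra hne
        exact hx (hsupp hne)
      rcases le_or_gt (v (Fin.ofNat s 0)) (m + 1) with h | h
      · refine ⟨N, le_rfl, fun x hx => hvan x (fun hx' => ?_)⟩
        have h1 := mstar_dist v (Fin.ofNat s 0) m x hx'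
        have h2 := (hull_coord hx hs).1
        unfold sG at h2
        have h3 : (Fin.ofNat s (N + 0) : Fin s) = Fin.ofNat s 0 := by
          apply Fin.ext
          simp [Fin.ofNat, hN]
        have h4 : (N + 0) / s = 2 * m + 2 := by
          rw [hN, add_zero, Nat.mul_div_cancel_left _ hs]
        rw [h3, h4] at h2
        push_cast at h2
        rw [abs_le] at h1
        linarith [h1.2]
      · refine ⟨0, by omega, fun x hx => hvan x (fun hx' => ?_)⟩
        have h1 := mstar_dist v (Fin.ofNat s 0) m x hx'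
        have h2 := (hull_coord hx hs).2
        unfold sG at h2
        simp only [add_zero, Nat.zero_div, Nat.cast_zero, sub_zero] at h2
        rw [abs_le] at h1
        linarith [h1.1]
    obtain ⟨e, he, hvan⟩ := hend
    have := conserved hmem hα hαk hfp e he 0 (by simp) (fun x hx => by simp [hvan x hx])
    rw [this]; simp
  have htop : (⊤ : Submodule ℝ ((chain s N).splines k r)) ≤ W := by
    rw [← B.span_eq, Submodule.span_le]
    rintro _ ⟨i, rfl⟩
    exact hBW i
  -- the monomial
  let f0 : (Fin s → ℝ) → ℝ := fun x => if x ∈ (chain s N).region then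
    MvPolynomial.eval x (MvPolynomial.monomial α (1 : ℝ)) else 0
  have hf0 : f0 ∈ (chain s N).splines k r := by
    refine ⟨fun x hx => by simp [f0, hx], ?_, ?_⟩
    · apply (contDiff_eval (MvPolynomial.monomial α (1 : ℝ)) r).contDiffOn.congr
      intro x hx
      simp only [f0, if_pos hx]
    · intro T hT
      refine ⟨MvPolynomial.monomial α (1 : ℝ), ?_, ?_⟩
      · rw [MvPolynomial.totalDegree_monomial _ one_ne_zero]
        exact hαk.le
      · intro x hx
        have : x ∈ (chain s N).region := ⟨T, hT, hx⟩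
        simp only [f0, if_pos this]
  obtain ⟨p, hp, hp'⟩ := htop (x := ⟨f0, hf0⟩) Submodule.mem_top
  have heq : p = MvPolynomial.monomial α (1 : ℝ) := by
    apply eq_of_hull (i := 0)
    intro x hx
    rw [← hp x hx]
    have : x ∈ (chain s N).region := hull_subset_region (by omega) hx
    simp only [f0, if_pos this]
  rw [heq, MvPolynomial.coeff_monomial, if_pos rfl] at hp'
  exact one_ne_zero hp'

end Run7.h662
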